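import Pool.Graph.R_seed8.H633R2.DkSOpt

/-!
# Partitions into modules that induce complements of star forests
-/

namespace Pool.Agent.H633R2

/-- `G` is the complement of a star forest (a disjoint union of stars; isolated vertices and single
edges are stars): `c x` is the centre of the star of `x`, and the edges that are missing in `G` are
exactly those between the vertices and their centres. -/
def CoStarForest {V : Type} (G : SimpleGraph V) : Prop :=
  ∃ c : V → V, (∀ x, c (c x) = c x) ∧
    ∀ x y, G.Adj x y ↔ x ≠ y ∧ ¬ (c x = c y ∧ (x = c x ∨ y = c y))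

/-- `f` is a partition of the vertices into at most `p` modules, each of which induces the
complement of a star forest. -/
def CoStarPartition {V : Type} (G : SimpleGraph V) (p : ℕ) : Prop :=
  ∃ f : V → Fin p,
    (∀ x y x' y', f x ≠ f y → f x' = f x → f y' = f y → (G.Adj x' y' ↔ G.Adj x y)) ∧
    ∀ i, CoStarForest (G.induce {y | f y = i})

/-- The least number of modules in such a partition. -/
noncomputable def coStarNumber {V : Type} (G : SimpleGraph V) : ℕ :=
  sInf {p | CoStarPartition G p}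

/-- Partition into singletons. -/
theorem coStarPartition_card {n : ℕ} (G : SimpleGraph (Fin n)) : CoStarPartition G n := by
  refine ⟨id, ?_, ?_⟩
  · intro x y x' y' _ h1 h2
    simp only [id] at h1 h2
    rw [h1, h2]
  · intro i
    refine ⟨id, fun _ => rfl, ?_⟩
    rintro ⟨x, hx⟩ ⟨y, hy⟩
    simp only [Set.mem_ofPred_eq, id] at hx hy
    subst hx
    subst hy
    simp

theorem CoStarPartition.iso {V W : Type} {G : SimpleGraph V} {H : SimpleGraph W} (e : G ≃g H)
    {p : ℕ} (h : CoStarPartition G p) : CoStarPartition H p := by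
  obtain ⟨f, hf, hc⟩ := h
  refine ⟨fun w => f (e.symm w), ?_, ?_⟩
  · intro x y x' y' h1 h2 h3
    have := hf (e.symm x) (e.symm y) (e.symm x') (e.symm y') h1 h2 h3
    rwa [e.symm.map_adj_iff, e.symm.map_adj_iff] at this
  · intro i
    obtain ⟨c, hc1, hc2⟩ := hc i
    refine ⟨fun w => ⟨e (c ⟨e.symm w.1, w.2⟩).1, ?_⟩, ?_, ?_⟩
    · simp only [Set.mem_ofPred_eq, RelIso.symm_apply_apply]
      exact (c ⟨e.symm w.1, w.2⟩).2
    · rintro ⟨w, hw⟩
      apply Subtype.ext
      simp only [RelIso.symm_apply_apply, Subtype.coe_eta]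
      rw [hc1]
    · rintro ⟨w, hw⟩ ⟨w', hw'⟩
      have h1 := hc2 ⟨e.symm w, hw⟩ ⟨e.symm w', hw'⟩
      simp only [SimpleGraph.comap_adj, Function.Embedding.subtype_apply] at h1 ⊢
      rw [e.symm.map_adj_iff] at h1
      rw [h1]
      simp only [ne_eq, Subtype.mk.injEq, EmbeddingLike.apply_eq_iff_eq]
      have h2 : ∀ (a : W) (ha : f (e.symm a) = i),
          (a = e (c ⟨e.symm a, ha⟩).1 ↔ (⟨e.symm a, ha⟩ : {y | f y = i}) = c ⟨e.symm a, ha⟩) := by
        intro a ha
        rw [Subtype.ext_iff]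
        constructor
        · intro h
          have h5 := congrArg e.symm h
          simpa using h5
        · intro h
          have h5 := congrArg e h
          simpa using h5
      rw [h2 w hw, h2 w' hw']
      have h3 : (e (c ⟨e.symm w, hw⟩).1 = e (c ⟨e.symm w', hw'⟩).1) ↔
          c ⟨e.symm w, hw⟩ = c ⟨e.symm w', hw'⟩ := by
        rw [EmbeddingLike.apply_eq_iff_eq, Subtype.ext_iff]
      simp only [Subtype.ext_iff]

/-- complements of star forests are cographs -/
theorem CoStarForest.mwle {w : ℕ} {V : Type} [Finite V] [Nonempty V] {G : SimpleGraph V}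
    (h : CoStarForest G) : MWLE w G := by
  obtain ⟨c, hc1, hc2⟩ := h
  refine MWLE.of_cross True _ inferInstance rfl inferInstance G c ?_ ?_
  · intro x y hxy
    rw [hc2, iff_true]
    exact ⟨fun h => hxy (by rw [h]), fun h => hxy h.1⟩
  · intro x
    refine MWLE.of_cross False _ inferInstance rfl ⟨⟨x, rfl⟩⟩ _
      (fun y : {y | c y = c x} => (y.1 = c y.1 : Prop)) ?_ ?_
    · rintro ⟨y, hy⟩ ⟨z, hz⟩ hyz
      simp only [Set.mem_ofPred_eq] at hy hz
      rw [iff_false]
      intro h
      have h1 := (hc2 y z).1 h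
      apply h1.2
      refine ⟨hy.trans hz.symm, ?_⟩
      by_contra hcon
      push Not at hcon
      exact hyz (propext ⟨fun h => absurd h hcon.1, fun h => absurd h hcon.2⟩)
    · rintro ⟨y, hy⟩
      have : Nonempty ({z : {y | c y = c x} | (z.1 = c z.1 : Prop) = (y = c y : Prop)}) :=
        ⟨⟨⟨y, hy⟩, rfl⟩⟩
      refine MWLE.of_homog _ True ?_
      rintro ⟨⟨a, ha⟩, ha'⟩ ⟨⟨b, hb⟩, hb'⟩ hab
      rw [iff_true]
      have hne : a ≠ b := fun h => hab (by subst h; rfl)
      simp only [Set.mem_ofPred_eq] at ha hb ha' hb'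
      change G.Adj a b
      rw [hc2]
      refine ⟨hne, ?_⟩
      rintro ⟨h1, h2⟩
      have h3 : (a = c a) ↔ (b = c b) := by rw [ha', hb']
      have h4 : a = c a ∧ b = c b := by
        rcases h2 with h2 | h2
        · exact ⟨h2, h3.1 h2⟩
        · exact ⟨h3.2 h2, h2⟩
      exact hne (by rw [h4.1, h4.2, h1])

/-- The modular width is at most the number of modules. -/
theorem CoStarPartition.mwle {V : Type} [Finite V] [Nonempty V] {G : SimpleGraph V} {p : ℕ}
    (h : CoStarPartition G p) : MWLE p G := by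
  classical
  obtain ⟨f, hf, hc⟩ := h
  obtain ⟨v0⟩ := (inferInstance : Nonempty V)
  have : Nonempty (Set.range f) := ⟨⟨f v0, ⟨v0, rfl⟩⟩⟩
  let rp : Set.range f → V := fun i => i.2.choose
  have hrp : ∀ i, f (rp i) = i.1 := fun i => i.2.choose_spec
  let H : SimpleGraph (Set.range f) :=
    { Adj := fun i j => i ≠ j ∧ G.Adj (rp i) (rp j)
      symm := ⟨fun i j h => ⟨h.1.symm, h.2.symm⟩⟩
      loopless := ⟨fun _ h => h.1 rfl⟩ }
  have hcard : Nat.card (Set.range f) ≤ p := by
    have := Nat.card_le_card_of_injective (fun i : Set.range f => i.1) Subtype.val_injective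
    simpa using this
  refine MWLE.of_modules hcard H G (fun v => ⟨f v, ⟨v, rfl⟩⟩) ?_ ?_
  · intro x y hxy
    have hne : f x ≠ f y := fun h => hxy (Subtype.ext h)
    change G.Adj x y ↔ (_ ≠ _ ∧ G.Adj _ _)
    constructor
    · intro h
      exact ⟨hxy, (hf x y _ _ hne (hrp _) (hrp _)).2 h⟩
    · rintro ⟨_, h⟩
      exact (hf x y _ _ hne (hrp _) (hrp _)).1 h
  · rintro ⟨i, ⟨v, hv⟩⟩
    have hset : {y : V | (⟨f y, ⟨y, rfl⟩⟩ : Set.range f) = ⟨i, ⟨v, hv⟩⟩} = {y | f y = i} := by
      ext y
      simp only [Set.mem_ofPred_eq, Subtype.mk.injEq]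
    rw [hset]
    have : Nonempty {y | f y = i} := ⟨⟨v, hv⟩⟩
    exact (hc i).mwle

/-- `mw(G)` is at most the number of modules in every partition into modules that induce
complements of star forests. -/
theorem modularWidth_le_coStarNumber {n : ℕ} (hn : 0 < n) (G : SimpleGraph (Fin n)) :
    modularWidth G ≤ coStarNumber G := by
  have : Nonempty (Fin n) := ⟨⟨0, hn⟩⟩
  have hne : {p | CoStarPartition G p}.Nonempty := ⟨n, coStarPartition_card G⟩
  exact modularWidth_le (Nat.sInf_mem hne).mwle

theorem coStarNumber_le {V : Type} {G : SimpleGraph V} {p : ℕ} (h : CoStarPartition G p) :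
    coStarNumber G ≤ p := Nat.sInf_le h

/-! ### The graphs of the reduction -/

/-- A star module of descriptors induces the complement of a star forest. -/
theorem stars_coStar (V : List Ds) (hV : V.Nodup) (p : ℕ × Vr) (A : Set (Fin V.length))
    (hA : ∀ i, i ∈ A ↔ (V[i].1, V[i].2.1) = p)
    (h0 : ∀ v ∈ V, ((v.1, v.2.1, v.2.2.1, 0) : Ds) ∈ V) :
    CoStarForest ((denseG V).induce A) := by
  classical
  have hinj : ∀ i j : Fin V.length, V[i] = V[j] → i = j := fun i j h =>
    Fin.ext ((List.Nodup.getElem_inj_iff hV).1 h)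
  have hex : ∀ i : A, ∃ j : A, V[j.1] = ((V[i.1].1, V[i.1].2.1, V[i.1].2.2.1, 0) : Ds) := by
    rintro ⟨i, hi⟩
    obtain ⟨j, hj, hj2⟩ := List.mem_iff_getElem.1 (h0 V[i] (List.getElem_mem _))
    refine ⟨⟨⟨j, hj⟩, ?_⟩, hj2⟩
    rw [hA]
    have h1 := (hA i).1 hi
    change (V[j].1, V[j].2.1) = p
    rw [hj2]
    exact h1
  choose c hc using hex
  have hkey : ∀ x : A, V[x.1].1 = p.1 ∧ V[x.1].2.1 = p.2 := by
    rintro ⟨x, hx⟩
    have := (hA x).1 hx
    rw [← this]
    exact ⟨rfl, rfl⟩
  have hcc : ∀ x y : A, c x = c y ↔ V[x.1].2.2.1 = V[y.1].2.2.1 := by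
    intro x y
    constructor
    · intro h
      have h1 : V[(c x).1] = V[(c y).1] := congrArg (fun z : A => V[z.1]) h
      rw [hc, hc] at h1
      have h7 := congrArg (fun z : Ds => z.2.2.1) h1
      exact h7
    · intro h
      apply Subtype.ext
      apply hinj
      rw [hc, hc, h, (hkey x).1, (hkey x).2, (hkey y).1, (hkey y).2]
  have hxc : ∀ x : A, x = c x ↔ V[x.1].2.2.2 = 0 := by
    intro x
    constructor
    · intro h
      have h1 : V[x.1] = V[(c x).1] := congrArg (fun z : A => V[z.1]) h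
      rw [h1, hc]
    · intro h
      apply Subtype.ext
      apply hinj
      rw [hc]
      rcases hV' : V[x.1] with ⟨a, b, d, e⟩
      rw [hV'] at h
      simp only at h
      rw [h]
  refine ⟨c, ?_, ?_⟩
  · intro x
    rw [hcc, hc]
  · rintro x y
    have h3 : V[x.1].1 = V[y.1].1 ∧ V[x.1].2.1 = V[y.1].2.1 := by
      rw [(hkey x).1, (hkey x).2, (hkey y).1, (hkey y).2]
      exact ⟨rfl, rfl⟩
    have hadj : ((denseG V).induce A).Adj x y ↔
        x ≠ y ∧ H633R2.inner V[x.1] V[y.1] = false := by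
      obtain ⟨x, hx⟩ := x
      obtain ⟨y, hy⟩ := y
      show (x ≠ y ∧ gadj V[x] V[y] = false) ↔ _
      unfold gadj
      rw [decide_eq_true h3, cond_true]
      simp
    rw [hadj]
    refine and_congr_right fun hne => ?_
    rw [hcc, hxc, hxc]
    have hboth : ¬ (V[x.1].2.2.1 = V[y.1].2.2.1 ∧ V[x.1].2.2.2 = 0 ∧ V[y.1].2.2.2 = 0) := by
      rintro ⟨h4, h5, h6⟩
      apply hne
      have e1 := (hxc x).2 h5
      have e2 := (hxc y).2 h6
      rw [e1, e2, (hcc x y).2 h4]
    generalize V[x.1] = a at hboth ⊢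
    generalize V[y.1] = b at hboth ⊢
    unfold H633R2.inner
    by_cases h4 : a.2.2.1 = b.2.2.1
    · by_cases h5 : a.2.2.2 = 0 <;> by_cases h6 : b.2.2.2 = 0
      · exact absurd ⟨h4, h5, h6⟩ hboth
      · simp [h4, h5, h6]
      · simp [h4, h5, h6]
      · simp [h4, h5, h6]
    · simp [h4]

theorem verts_centre {k t : ℕ} {D : Vr → ℕ → Bool} : ∀ v ∈ verts k t D,
    ((v.1, v.2.1, v.2.2.1, 0) : Ds) ∈ verts k t D := by
  intro v hv
  rw [mem_verts] at hv ⊢
  rcases hv with h | h | h
  · exact Or.inl ⟨h.1, h.2.1, h.2.2.1, Nat.zero_le _⟩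
  · exact Or.inr (Or.inl ⟨h.1, h.2.1, h.2.2.1, rfl⟩)
  · exact Or.inr (Or.inr ⟨h.1, h.2.1, h.2.2.1, Nat.zero_le _⟩)

theorem dense_coStar {k t : ℕ} {D : Vr → ℕ → Bool} :
    CoStarPartition (denseG (verts k t D)) (gw k) := by
  classical
  set V := verts k t D with hV
  let key : Fin V.length → ℕ × Vr := fun i => (V[i].1, V[i].2.1)
  have hcard : Nat.card (Set.range key) ≤ gw k := by
    let L : Finset (ℕ × Vr) := insert (2, ((0, 0, 0) : Vr))
      ((us k).toFinset.image (fun u => (0, u)) ∪ (us k).toFinset.image (fun u => (1, u)))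
    have hsub : Set.range key ⊆ (L : Set (ℕ × Vr)) := by
      rintro p ⟨i, rfl⟩
      have hmem : V[i] ∈ verts k t D := List.getElem_mem _
      rw [mem_verts] at hmem
      simp only [key, L, Finset.coe_insert, Finset.coe_union, Finset.coe_image,
        Set.mem_insert_iff, Set.mem_union, Set.mem_image, Finset.mem_coe, List.mem_toFinset]
      rcases hmem with h | h | h
      · exact Or.inr (Or.inl ⟨_, h.2.1, by rw [h.1]⟩)
      · exact Or.inr (Or.inr ⟨_, h.2.1, by rw [h.1]⟩)
      · left; rw [h.1, h.2.1]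
    have h1 : Nat.card (Set.range key) ≤ L.card := by
      rw [Nat.card_coe_set_eq, ← Set.ncard_coe_finset]
      exact Set.ncard_le_ncard hsub (Finset.finite_toSet _)
    have h2 : L.card ≤ ((us k).toFinset.card + (us k).toFinset.card) + 1 := by
      refine (Finset.card_insert_le _ _).trans (Nat.add_le_add_right ?_ 1)
      exact (Finset.card_union_le _ _).trans (Nat.add_le_add Finset.card_image_le
        Finset.card_image_le)
    rw [List.toFinset_card_of_nodup (us_nodup k), us_length] at h2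
    unfold gw
    omega
  obtain ⟨n, ⟨e⟩⟩ := Finite.exists_equiv_fin (Set.range key)
  have hn : n ≤ gw k := by
    have : Nat.card (Set.range key) = n := by rw [Nat.card_congr e]; simp
    omega
  let ι : Set.range key → Fin (gw k) := fun q => Fin.castLE hn (e q)
  have hι : Function.Injective ι := fun a b h => e.injective (Fin.castLE_injective hn h)
  have hkk : ∀ x y : Fin V.length, ι ⟨key x, ⟨x, rfl⟩⟩ = ι ⟨key y, ⟨y, rfl⟩⟩ ↔
      key x = key y := by
    intro x y
    rw [hι.eq_iff, Subtype.mk.injEq]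
  refine ⟨fun x => ι ⟨key x, ⟨x, rfl⟩⟩, ?_, ?_⟩
  · intro x y x' y' hxy hx hy
    simp only at hxy hx hy
    rw [ne_eq, hkk] at hxy
    rw [hkk] at hx hy
    have hx1 : (key x').1 = (key x).1 := by rw [hx]
    have hx2 : (key x').2 = (key x).2 := by rw [hx]
    have hy1 : (key y').1 = (key y).1 := by rw [hy]
    have hy2 : (key y').2 = (key y).2 := by rw [hy]
    change V[x'].1 = V[x].1 at hx1
    change V[x'].2.1 = V[x].2.1 at hx2
    change V[y'].1 = V[y].1 at hy1
    change V[y'].2.1 = V[y].2.1 at hy2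
    have hne : ¬ (V[x].1 = V[y].1 ∧ V[x].2.1 = V[y].2.1) := fun h => hxy (Prod.ext h.1 h.2)
    have hne' : ¬ (V[x'].1 = V[y'].1 ∧ V[x'].2.1 = V[y'].2.1) := by
      rw [hx1, hx2, hy1, hy2]; exact hne
    show (x' ≠ y' ∧ gadj V[x'] V[y'] = false) ↔ (x ≠ y ∧ gadj V[x] V[y] = false)
    have a1 : x ≠ y := fun h => hxy (by rw [h])
    have a2 : x' ≠ y' := fun h => hxy (by rw [← hx, ← hy, h])
    unfold gadj
    rw [decide_eq_false hne, decide_eq_false hne', cond_false, cond_false]
    unfold outer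
    rw [hx1, hx2, hy1, hy2]
    simp [a1, a2]
  · intro i
    by_cases hi : ∃ x, ι ⟨key x, ⟨x, rfl⟩⟩ = i
    · obtain ⟨x, hx⟩ := hi
      refine stars_coStar V verts_nodup (key x) _ ?_ verts_centre
      intro y
      change ι ⟨key y, ⟨y, rfl⟩⟩ = i ↔ key y = key x
      rw [← hx, hkk]
    · refine ⟨fun y => y, fun _ => rfl, ?_⟩
      rintro ⟨y, hy⟩
      exact absurd ⟨y, hy⟩ hi

/-- The number of modules of the constructed graphs. -/
theorem red_coStar (x : List (List Bool) × ℕ) : coStarNumber (graphOf (red x).1) ≤ gw x.2 := by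
  refine coStarNumber_le ?_
  obtain ⟨M, k⟩ := x
  by_cases hk : k ≤ M.length
  · have hmin : min k M.length = k := min_eq_left hk
    have hred : (red (M, k)).1 = mat (VV M k) := by
      unfold red
      simp [hk]
    rw [hred]
    refine CoStarPartition.iso ⟨finCongr (mat_length (VV M k)).symm, ?_⟩
      (dense_coStar (k := k) (t := TT M) (D := DD M))
    intro i j
    rw [mat_adj]
    rfl
  · have hred : (red (M, k)).1 = [[false]] := by
      unfold red
      simp [hk]
    rw [hred]
    have h1 : CoStarPartition (graphOf [[false]]) 1 := coStarPartition_card _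
    obtain ⟨f, hf, hc⟩ := h1
    have hg : 1 ≤ gw k := by unfold gw; omega
    refine ⟨fun v => Fin.castLE hg (f v), ?_, ?_⟩
    · intro x y _ _ h
      exact absurd (by rw [Subsingleton.elim (α := Fin 1) x y]) h
    · intro i
      refine ⟨fun y => y, fun _ => rfl, ?_⟩
      rintro ⟨a, ha⟩ ⟨b, hb⟩
      have hab : a = b := Subsingleton.elim (α := Fin 1) a b
      subst hab
      simp

/-- The parameterized reduction from clique. -/
theorem clique_reduces_coStar : FptReduces (fun x : List (List Bool) × ℕ => x.2) HasClique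
    (fun x : List (List Bool) × ℕ × ℕ => coStarNumber (graphOf x.1)) DenseSub :=
  ⟨red, gw, FptTime.of_poly Pool.Agent.NPC.H633.poly_red, gw_computable,
    fun x => ⟨red_correct x, red_coStar x⟩⟩

end Pool.Agent.H633R2

namespace Pool.Agent.NPC.H633

open Pool.Agent.H633R2

/-- Computing the optimum in fpt time suffices for deciding. -/
theorem isFpt_of_maxEdges_coStar
    (h : FptTime (fun x : List (List Bool) × ℕ => coStarNumber (graphOf x.1)) maxEdges) :
    IsFpt (fun x : List (List Bool) × ℕ × ℕ => coStarNumber (graphOf x.1)) DenseSub := by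
  have h1 : FptTime (fun x : List (List Bool) × ℕ × ℕ => coStarNumber (graphOf x.1))
      (fun x : List (List Bool) × ℕ × ℕ => maxEdges (x.1, x.2.1)) :=
    FptTime.comp (κ := fun x : List (List Bool) × ℕ × ℕ => coStarNumber (graphOf x.1))
      (f := fun x : List (List Bool) × ℕ × ℕ => (x.1, x.2.1)) h
      (FptTime.of_poly (Poly.pair (Poly.fst Poly.id) (Poly.fst (Poly.snd Poly.id))))
      Computable.id (fun _ => le_rfl)
  have h2 : FptTime (fun x : List (List Bool) × ℕ × ℕ => coStarNumber (graphOf x.1))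
      (fun x : List (List Bool) × ℕ × ℕ => x.2.2) :=
    FptTime.of_poly (Poly.snd (Poly.snd Poly.id))
  have h3 := FptTime.poly_comp (g := fun p : ℕ × ℕ => decide (p.2 ≤ p.1))
    (Poly.decide_le (Poly.snd Poly.id) (Poly.fst Poly.id)) (h1.pair h2)
  refine ⟨_, h3, fun x => ?_⟩
  rw [decide_eq_true_iff]
  exact (denseSub_iff_le x).symm

end Pool.Agent.NPC.H633
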